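import Pool.Agent.MVD.Stmts

/-! Row KPL of squad MVD: a letter which occurs twice in one block stays in one block. -/

namespace Pool.Agent.MVD.H48

open Pool.Agent.Helper14_MV Pool.Agent.Helper2_MV

theorem sfr_append {a b : List ℕ} (ha : SFr a) (hb : SFr b) : SFr (a ++ b) := by
  intro c hc
  rcases List.mem_append.1 hc with h | h
  · exact ha c h
  · exact hb c h

/-- projection of a word without separators -/
theorem filter_sfr {c q : ℕ} {l : List ℕ} (hl : SFr l) :
    l.filter (fun i => i == c || i == 3 * q + 2) = List.replicate (l.count c) c := by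
  induction l with
  | nil => simp
  | cons a l ih =>
    have h1 : a % 3 ≠ 2 := hl a (by simp)
    have h2 : SFr l := fun x hx => hl x (List.mem_cons_of_mem _ hx)
    have h3 : ¬ a = 3 * q + 2 := by omega
    rw [List.filter_cons, ih h2]
    by_cases hac : a = c
    · subst hac
      simp [List.replicate_succ]
    · simp [hac, h3, List.count_cons]

theorem filter_bw {c q : ℕ} (hc : c % 3 ≠ 2) (B : ℕ → List ℕ) (L : List ℕ)
    (hB : ∀ r ∈ L, SFr (B r)) (hq : q ∉ L) :
    (Bw L B).filter (fun i => i == c || i == 3 * q + 2) =
      List.replicate ((L.map (fun r => (B r).count c)).sum) c := by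
  induction L with
  | nil => simp [Bw]
  | cons a L ih =>
    have h1 : SFr (B a) := hB a (by simp)
    have h2 : ∀ r ∈ L, SFr (B r) := fun x hx => hB x (List.mem_cons_of_mem _ hx)
    have h3 : q ∉ L := fun h => hq (List.mem_cons_of_mem _ h)
    have h4 : a ≠ q := fun h => hq (by simp [h])
    have e1 : Bw (a :: L) B = B a ++ ([3 * a + 2] ++ Bw L B) := by simp [Bw]
    have h5 : ¬ 3 * a + 2 = c := by omega
    have h6 : ¬ 3 * a + 2 = 3 * q + 2 := by omega
    rw [e1, List.filter_append, List.filter_append, filter_sfr h1, ih h2 h3, List.map_cons,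
      List.sum_cons, List.replicate_add]
    simp [h5, h4]

theorem proj {c q : ℕ} (hc : c % 3 ≠ 2) (B : ℕ → List ℕ) (P S e : List ℕ)
    (hB : ∀ r ∈ P ++ q :: S, SFr (B r)) (he : SFr e) (hn : (P ++ q :: S).Nodup) :
    (Bw (P ++ q :: S) B ++ e).filter (fun i => i == c || i == 3 * q + 2) =
      List.replicate (((P ++ [q]).map (fun r => (B r).count c)).sum) c ++ (3 * q + 2) ::
        List.replicate ((S.map (fun r => (B r).count c)).sum + e.count c) c := by
  have hqP : q ∉ P := by
    intro h
    have := (List.nodup_append.1 hn).2.2 q h q (by simp)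
    exact this rfl
  have hqS : q ∉ S := (List.nodup_cons.1 (List.nodup_append.1 hn).2.1).1
  have e1 : Bw (P ++ q :: S) B ++ e = Bw P B ++ (B q ++ ([3 * q + 2] ++ (Bw S B ++ e))) := by
    simp [Bw]
  have hBP : ∀ r ∈ P, SFr (B r) := fun r hr => hB r (by simp [hr])
  have hBS : ∀ r ∈ S, SFr (B r) := fun r hr => hB r (by simp [hr])
  have hBq : SFr (B q) := hB q (by simp)
  have h5 : ¬ 3 * q + 2 = c := by omega
  rw [e1]
  simp only [List.filter_append]
  have e2 : [3 * q + 2].filter (fun i => i == c || i == 3 * q + 2) = [3 * q + 2] := by simp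
  rw [filter_bw hc B P hBP hqP, filter_bw hc B S hBS hqS, filter_sfr hBq, filter_sfr he, e2,
    List.map_append, List.sum_append, List.replicate_add, List.replicate_add]
  simp only [List.append_assoc, List.cons_append, List.nil_append, List.map_cons, List.map_nil,
    List.sum_cons, List.sum_nil, Nat.add_zero]

theorem sum_ind {f : ℕ → ℕ} {s : ℕ} (L : List ℕ) (hL : L.Nodup)
    (hf : ∀ q ∈ L, f q = if q = s then 2 else 0) :
    (L.map f).sum = if s ∈ L then 2 else 0 := by
  induction L with
  | nil => simp
  | cons a L ih =>
    have h1 := (List.nodup_cons.1 hL).1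
    have h2 := (List.nodup_cons.1 hL).2
    rw [List.map_cons, List.sum_cons, ih h2 (fun q hq => hf q (List.mem_cons_of_mem _ hq)),
      hf a (by simp)]
    by_cases has : a = s
    · subst has
      simp [h1]
    · have : ¬ s = a := fun h => has h.symm
      simp [has, this]

theorem comb {f : ℕ → ℕ} {n : ℕ} (L : List ℕ) (hL : L.Nodup) (hs : (L.map f).sum + n = 2)
    (hp : ∀ P q S, L = P ++ q :: S → ((P ++ [q]).map f).sum ≠ 1) :
    ((∃ s ∈ L, ∀ q ∈ L, f q = if q = s then 2 else 0) ∧ n = 0) ∨
      ((∀ q ∈ L, f q = 0) ∧ n = 2) := by
  induction L with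
  | nil => right; simpa using hs
  | cons a L ih =>
    have h1 := (List.nodup_cons.1 hL).1
    have h2 := (List.nodup_cons.1 hL).2
    rw [List.map_cons, List.sum_cons] at hs
    have h3 : f a ≠ 1 := by simpa using hp [] a L rfl
    have h4 : f a = 0 ∨ f a = 2 := by omega
    rcases h4 with h4 | h4
    · have h5 := ih h2 (by omega) (by
        intro P q S hPS
        have h6 := hp (a :: P) q S (by rw [hPS]; rfl)
        simpa [h4] using h6)
      rcases h5 with ⟨⟨s, hsL, hs2⟩, hn⟩ | ⟨h6, hn⟩
      · left
        refine ⟨⟨s, List.mem_cons_of_mem _ hsL, ?_⟩, hn⟩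
        intro q hq
        rcases List.mem_cons.1 hq with hqa | hq
        · have hne : ¬ q = s := by
            intro h
            apply h1
            rw [← hqa, h]
            exact hsL
          rw [if_neg hne, hqa]
          exact h4
        · exact hs2 q hq
      · right
        refine ⟨?_, hn⟩
        intro q hq
        rcases List.mem_cons.1 hq with rfl | hq
        · exact h4
        · exact h6 q hq
    · left
      have h5 : (L.map f).sum = 0 := by omega
      refine ⟨⟨a, by simp, ?_⟩, by omega⟩
      intro q hq
      rcases List.mem_cons.1 hq with rfl | hq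
      · rw [if_pos rfl]; exact h4
      · have hne : ¬ q = a := by
          intro h
          apply h1
          rw [← h]
          exact hq
        rw [if_neg hne]
        have h6 := List.sum_eq_zero_iff.1 h5 (f q) (List.mem_map_of_mem hq)
        exact h6

theorem sq_of {β : FIC} {c t : ℕ} (hct : c ≠ t) (h : RR β [c, c, t] [t, c, c]) : SQ β := by
  have h1 := h.sub (fun i => if i = c then [0] else if i = t then [2] else [])
  unfold SQ
  simpa [Ne.symm hct] using h1

theorem kpl : KplStmt := by
  intro β h2 h3 R B B' e hR hB hB' he hRR c r hc hr hcount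
  set f : ℕ → ℕ := fun q => (B q).count c with hf
  set f' : ℕ → ℕ := fun q => (B' q).count c with hf'
  have hfs : ∀ q ∈ R, f q = if q = r then 2 else 0 := hcount
  have hnil : SFr ([] : List ℕ) := fun x hx => absurd hx (by simp)
  -- the projection to `c` and one separator
  have hpr : ∀ P q S, R = P ++ q :: S →
      RR β (List.replicate (((P ++ [q]).map f).sum) c ++ (3 * q + 2) ::
          List.replicate ((S.map f).sum) c)
        (List.replicate (((P ++ [q]).map f').sum) c ++ (3 * q + 2) ::
          List.replicate ((S.map f').sum + e.count c) c) := by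
    intro P q S hPS
    subst hPS
    have h4 := hRR.filter (fun i => i == c || i == 3 * q + 2)
    rw [proj hc B' P S e hB' he hR] at h4
    have h5 := proj hc B P S [] hB hnil hR
    rw [List.append_nil] at h5
    rw [h5] at h4
    simpa using h4
  -- totals
  have hsum : (R.map f').sum + e.count c = 2 := by
    obtain ⟨P, S, hPS⟩ := List.append_of_mem hr
    have h4 := hpr P r S hPS
    have h5 := h4.sub (fun i => if i = c then [0] else [])
    have hne : ¬ 3 * r + 2 = c := by omega
    have hrep : ∀ n, (List.replicate n c).flatMap (fun i => if i = c then [0] else []) =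
        List.replicate n 0 := by
      intro n
      induction n with
      | zero => simp
      | succ n ih => rw [List.replicate_succ, List.flatMap_cons, ih]; simp [List.replicate_succ]
    rw [List.flatMap_append, List.flatMap_append, List.flatMap_cons, List.flatMap_cons, hrep, hrep,
      hrep, hrep, if_neg hne, List.nil_append, List.nil_append, ← List.replicate_add,
      ← List.replicate_add] at h5
    have h6 : ((P ++ [r]).map f).sum + (S.map f).sum = 2 := by
      have h7 := sum_ind R hR hfs
      rw [if_pos hr, hPS] at h7
      simp only [List.map_append, List.sum_append, List.map_cons, List.sum_cons, List.map_nil,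
        List.sum_nil] at h7 ⊢
      omega
    rw [h6] at h5
    have h7 := congrArg List.length (h2 _ h5)
    rw [List.length_replicate] at h7
    rw [hPS]
    simp only [List.map_append, List.sum_append, List.map_cons, List.sum_cons, List.map_nil,
      List.sum_nil, List.length_cons, List.length_nil] at h7 ⊢
    omega
  -- the numbers before a separator in `w`
  have hw : ∀ P q S, R = P ++ q :: S →
      (((P ++ [q]).map f).sum = 2 ∧ (S.map f).sum = 0 ∧ r ∈ P ++ [q]) ∨
      (((P ++ [q]).map f).sum = 0 ∧ (S.map f).sum = 2 ∧ r ∉ P ++ [q]) := by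
    intro P q S hPS
    have hn : ((P ++ [q]) ++ S).Nodup := by
      have : (P ++ [q]) ++ S = R := by rw [hPS]; simp
      rw [this]; exact hR
    have h4 := sum_ind (P ++ [q]) (List.nodup_append.1 hn).1 (fun x hx => hfs x (by
      rw [hPS]
      rcases List.mem_append.1 hx with h | h
      · simp [h]
      · simp at h; simp [h]))
    have h5 := sum_ind S (List.nodup_append.1 hn).2.1 (fun x hx => hfs x (by
      rw [hPS]; simp [hx]))
    have hmem : r ∈ P ++ [q] ∨ r ∈ S := by
      rw [hPS] at hr
      rcases List.mem_append.1 hr with h | h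
      · left; simp [h]
      · rcases List.mem_cons.1 h with h | h
        · left; simp [h]
        · right; exact h
    have hdis : r ∈ P ++ [q] → r ∉ S := fun h h' => (List.nodup_append.1 hn).2.2 r h r h' rfl
    rw [h4, h5]
    rcases hmem with h | h
    · left
      exact ⟨by rw [if_pos h], by rw [if_neg (hdis h)], h⟩
    · right
      have h' : r ∉ P ++ [q] := fun hh => hdis hh h
      exact ⟨by rw [if_neg h'], by rw [if_pos h], h'⟩
  -- no separator between the letters of `w'`
  have hne1 : ∀ P q S, R = P ++ q :: S → ((P ++ [q]).map f').sum ≠ 1 := by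
    intro P q S hPS h1
    have h4 := hpr P q S hPS
    have h5 : (S.map f').sum + e.count c = 1 := by
      have h6 := hsum
      rw [hPS] at h6
      simp only [List.map_append, List.sum_append, List.map_cons, List.sum_cons, List.map_nil,
        List.sum_nil] at h1 h6 ⊢
      omega
    have hne : c ≠ 3 * q + 2 := by omega
    rw [h1, h5] at h4
    have h6 := iso_aba h3 hne (RR.symm h4)
    rcases hw P q S hPS with h7 | h7
    · rw [h7.1, h7.2.1] at h6
      simp at h6
      omega
    · rw [h7.1, h7.2.1] at h6
      simp at h6
      omega
  have hmain := comb R hR hsum hne1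
  -- a separator with different numbers
  have hsq : ∀ P q S, R = P ++ q :: S →
      ((P ++ [q]).map f).sum ≠ ((P ++ [q]).map f').sum → SQ β := by
    intro P q S hPS hne
    have h4 := hpr P q S hPS
    have h5 := hne1 P q S hPS
    have h6 := hsum
    have hcq : c ≠ 3 * q + 2 := by omega
    have h8 : ((P ++ [q]).map f').sum + ((S.map f').sum + e.count c) = 2 := by
      rw [hPS] at h6
      simp only [List.map_append, List.sum_append, List.map_cons, List.sum_cons, List.map_nil,
        List.sum_nil] at h6 ⊢
      omega
    rcases hw P q S hPS with h7 | h7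
    · have h9 : ((P ++ [q]).map f').sum = 0 := by omega
      have h10 : (S.map f').sum + e.count c = 2 := by omega
      rw [h7.1, h7.2.1, h9, h10] at h4
      exact sq_of hcq (by simpa using h4)
    · have h9 : ((P ++ [q]).map f').sum = 2 := by omega
      have h10 : (S.map f').sum + e.count c = 0 := by omega
      rw [h7.1, h7.2.1, h9, h10] at h4
      exact sq_of hcq (RR.symm (by simpa using h4))
  obtain ⟨P, S, hPS⟩ := List.append_of_mem hr
  rcases hmain with ⟨⟨s, hsR, hs⟩, hn⟩ | ⟨h0, hn⟩
  · left
    refine ⟨⟨s, hsR, hs, ?_⟩, hn⟩
    by_cases hsr : s = r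
    · exact Or.inl hsr
    · right
      have hcases : s ∈ P ∨ s ∉ P := em _
      rcases hcases with hsP | hsP
      · obtain ⟨P1, P2, hP12⟩ := List.append_of_mem hsP
        have hR2 : R = P1 ++ s :: (P2 ++ r :: S) := by rw [hPS, hP12]; simp
        refine hsq P1 s (P2 ++ r :: S) hR2 ?_
        have hn2 : ((P1 ++ [s]) ++ (P2 ++ r :: S)).Nodup := by
          have : (P1 ++ [s]) ++ (P2 ++ r :: S) = R := by rw [hR2]; simp
          rw [this]; exact hR
        have hrn : r ∉ P1 ++ [s] := fun h =>
          (List.nodup_append.1 hn2).2.2 r h r (by simp) rfl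
        have h4 : ((P1 ++ [s]).map f).sum = 0 := by
          rcases hw P1 s _ hR2 with h | h
          · exact absurd h.2.2 hrn
          · exact h.1
        have h5 := sum_ind (f := f') (s := s) (P1 ++ [s]) (List.nodup_append.1 hn2).1
          (fun x hx => hs x (by
            rw [hR2]
            rcases List.mem_append.1 hx with h | h
            · simp [h]
            · simp at h; simp [h]))
        rw [h4, h5]
        simp
      · refine hsq P r S hPS ?_
        have hn2 : ((P ++ [r]) ++ S).Nodup := by
          have : (P ++ [r]) ++ S = R := by rw [hPS]; simp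
          rw [this]; exact hR
        have h4 : ((P ++ [r]).map f).sum = 2 := by
          rcases hw P r _ hPS with h | h
          · exact h.1
          · exact absurd (by simp) h.2.2
        have h5 := sum_ind (f := f') (s := s) (P ++ [r]) (List.nodup_append.1 hn2).1
          (fun x hx => hs x (by
            rw [hPS]
            rcases List.mem_append.1 hx with h | h
            · simp [h]
            · simp at h; simp [h]))
        rw [h4, h5, if_neg (by simp [hsP, hsr])]
        omega
  · right
    refine ⟨h0, hn, ?_⟩
    refine hsq P r S hPS ?_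
    have h4 : ((P ++ [r]).map f).sum = 2 := by
      rcases hw P r _ hPS with h | h
      · exact h.1
      · exact absurd (by simp) h.2.2
    have h5 : ((P ++ [r]).map f').sum = 0 := by
      rw [List.sum_eq_zero_iff]
      intro x hx
      obtain ⟨y, hy, rfl⟩ := List.mem_map.1 hx
      refine h0 y ?_
      rw [hPS]
      rcases List.mem_append.1 hy with h | h
      · simp [h]
      · simp at h; simp [h]
    rw [h4, h5]
    omega

end Pool.Agent.MVD.H48
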