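import Pool.Agent.MVD.StmtsLoc

/-! Row VEC of squad MVD: `VX` or all `EF`. -/

namespace Pool.Agent.MVD.H48

open Pool.Agent.Helper14_MV Pool.Agent.Helper2_MV

theorem rep_flat (g : ℕ → List ℕ) (x b : ℕ) (h : g 0 = [x]) :
    (List.replicate b 0).flatMap g = List.replicate b x := by
  induction b with
  | zero => rfl
  | succ b ih => rw [List.replicate_succ, List.flatMap_cons, ih, h, List.replicate_succ]; rfl

/-- moving a second `y` to the left over a power of `x` -/
theorem mv (ctx : CtxStmt) {β : FIC} (hS2 : S2 β) (P : List ℕ) (x y : ℕ) (hy : y ∈ P) (k : ℕ) :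
    ∀ T : List ℕ, x ∈ T →
      RR β (P ++ (List.replicate k x ++ y :: T)) (P ++ y :: (List.replicate k x ++ T)) := by
  induction k with
  | zero => intro T _; exact RR.refl _
  | succ k ih =>
    intro T hT
    have h1 := ih (x :: T) (List.mem_cons_self)
    have h2 := (ctx β).2.1 hS2 (P ++ List.replicate k x) T y x
      (List.mem_append_left _ hy) hT
    have e1 : P ++ (List.replicate (k + 1) x ++ y :: T) =
        (P ++ List.replicate k x) ++ x :: y :: T := by
      rw [List.replicate_succ']
      simp
    have e2 : (P ++ List.replicate k x) ++ y :: x :: T =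
        P ++ (List.replicate k x ++ y :: (x :: T)) := by simp
    have e3 : P ++ y :: (List.replicate k x ++ (x :: T)) =
        P ++ y :: (List.replicate (k + 1) x ++ T) := by
      rw [List.replicate_succ']
      simp
    rw [e1]
    rw [e2] at h2
    rw [e3] at h1
    exact β.trans (RR.symm h2) h1

theorem vec (ctx : CtxStmt) : VecStmt := by
  intro β hS2 hZZ
  by_cases hV : VX β
  · exact Or.inl hV
  right
  unfold VX at hV
  push Not at hV
  obtain ⟨b1, b2, b3, b4, hb, hne⟩ := hV
  intro n p c q x y _ hM hx
  by_cases hxy : x = y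
  · subst hxy
    exact RR.refl _
  obtain ⟨p1, p2, p3, rfl⟩ : ∃ p1 p2 p3, p = p1 ++ x :: (p2 ++ x :: p3) := by
    have h1 : x ∈ p := List.count_pos_iff.1 (by omega)
    obtain ⟨p1, s, hs, hn⟩ := List.eq_append_cons_of_mem h1
    have h2 : p1.count x = 0 := List.count_eq_zero.2 hn
    have h3 : x ∈ s := by
      apply List.count_pos_iff.1
      rw [hs, List.count_append, List.count_cons_self] at hx
      omega
    obtain ⟨p2, p3, hs'⟩ := List.append_of_mem h3
    exact ⟨p1, p2, p3, by rw [hs, hs']⟩
  set A : List ℕ := p1 ++ (List.replicate b1 x ++ (p2 ++ (List.replicate b2 x ++ p3))) with hA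
  -- the two substitutions
  have h1 : RR β ((p1 ++ x :: (p2 ++ x :: p3)) ++ y :: (c ++ x :: y :: q))
      ((A ++ y :: c) ++ (List.replicate b3 x ++ y :: (List.replicate b4 x ++ q))) := by
    set g : ℕ → List ℕ := fun i => if i = 0 then [x] else if i = 2 then p2 else
      if i = 5 then p3 ++ y :: c else [y] with hg
    have g0 : g 0 = [x] := rfl
    have g2 : g 2 = p2 := rfl
    have g5 : g 5 = p3 ++ y :: c := rfl
    have g8 : g 8 = [y] := rfl
    have h := ((RR.refl (β := β) p1).append (hb.sub g)).append (RR.refl q)
    simp only [List.flatMap_cons, List.flatMap_nil, List.flatMap_append, rep_flat g x _ g0,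
      g0, g2, g5, g8] at h
    rw [hA]
    simpa using h
  have h2 : RR β ((p1 ++ x :: (p2 ++ x :: p3)) ++ y :: (c ++ y :: x :: q))
      ((A ++ y :: c) ++ (y :: (List.replicate b3 x ++ (List.replicate b4 x ++ q)))) := by
    set g : ℕ → List ℕ := fun i => if i = 0 then [x] else if i = 2 then p2 else
      if i = 5 then p3 ++ y :: (c ++ [y]) else [] with hg
    have g0 : g 0 = [x] := rfl
    have g2 : g 2 = p2 := rfl
    have g5 : g 5 = p3 ++ y :: (c ++ [y]) := rfl
    have g8 : g 8 = [] := rfl
    have h := ((RR.refl (β := β) p1).append (hb.sub g)).append (RR.refl q)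
    simp only [List.flatMap_cons, List.flatMap_nil, List.flatMap_append, rep_flat g x _ g0,
      g0, g2, g5, g8] at h
    rw [hA]
    simpa [-List.replicate_append_replicate] using h
  have hyP : y ∈ A ++ y :: c := by simp
  have h3 : RR β ((A ++ y :: c) ++ (List.replicate b3 x ++ y :: (List.replicate b4 x ++ q)))
      ((A ++ y :: c) ++ (y :: (List.replicate b3 x ++ (List.replicate b4 x ++ q)))) := by
    rcases Nat.eq_zero_or_pos b4 with hb4 | hb4
    · -- `b4 = 0`
      subst hb4
      rcases Nat.eq_zero_or_pos b3 with hb3 | hb3
      · subst hb3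
        exact RR.refl _
      · obtain ⟨k, rfl⟩ : ∃ k, b3 = k + 2 := ⟨b3 - 2, by
          have : b3 ≠ 1 := fun h => hne h rfl
          omega⟩
        have hMc : Mult c (A ++ y :: (c ++ x :: (List.replicate k x ++ y :: x :: q))) := by
          intro a ha
          have h4 := hM a ha
          have h5 : 1 ≤ c.count a := List.count_pos_iff.2 ha
          by_cases hax : a = x
          · subst hax
            simp only [List.count_append, List.count_cons, beq_self_eq_true, if_true]
            omega
          · have h6 : ¬ x = a := fun h => hax h.symm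
            rw [hA]
            simp only [List.count_append, List.count_cons, List.count_replicate, beq_iff_eq,
              if_neg h6] at h4 ⊢
            omega
        have hz := RR.symm (hZZ A (List.replicate k x) c q y x hMc)
        have hm := mv ctx hS2 (A ++ y :: c) x y hyP (k + 1) (x :: q) (List.mem_cons_self)
        have e1 : A ++ y :: (c ++ x :: (List.replicate k x ++ x :: y :: q)) =
            (A ++ y :: c) ++ (List.replicate (k + 2) x ++ y :: (List.replicate 0 x ++ q)) := by
          rw [List.replicate_succ, List.replicate_succ']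
          simp
        have e2 : A ++ y :: (c ++ x :: (List.replicate k x ++ y :: x :: q)) =
            (A ++ y :: c) ++ (List.replicate (k + 1) x ++ y :: (x :: q)) := by
          rw [List.replicate_succ]
          simp
        have e3 : (A ++ y :: c) ++ y :: (List.replicate (k + 1) x ++ (x :: q)) =
            (A ++ y :: c) ++ (y :: (List.replicate (k + 2) x ++ (List.replicate 0 x ++ q))) := by
          rw [List.replicate_succ' (n := k + 1)]
          simp
        rw [e1, e2] at hz
        rw [e3] at hm
        exact β.trans hz hm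
    · obtain ⟨k, rfl⟩ : ∃ k, b4 = k + 1 := ⟨b4 - 1, by omega⟩
      exact mv ctx hS2 (A ++ y :: c) x y hyP b3 _ (by simp)
  exact β.trans h1 (β.trans h3 (RR.symm h2))

end Pool.Agent.MVD.H48
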