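import Pool.Agent.MVD.Stmts

/-! Row PWS of squad MVD: `p_g` is in `SS g`. -/

namespace Pool.Agent.MVD.H48

open Pool.Agent.Helper14_MV Pool.Agent.Helper2_MV

theorem ys_perm : ∀ g : Equiv.Perm (Fin 4),
    [3 * (g 0).val, 3 * (g 1).val, 3 * (g 0).val, 3 * (g 2).val, 3 * (g 1).val, 3 * (g 3).val,
      3 * (g 2).val, 3 * (g 3).val].Perm
    [3 * ((1 : Equiv.Perm (Fin 4)) 0).val, 3 * ((1 : Equiv.Perm (Fin 4)) 1).val,
      3 * ((1 : Equiv.Perm (Fin 4)) 0).val, 3 * ((1 : Equiv.Perm (Fin 4)) 2).val,
      3 * ((1 : Equiv.Perm (Fin 4)) 1).val, 3 * ((1 : Equiv.Perm (Fin 4)) 3).val,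
      3 * ((1 : Equiv.Perm (Fin 4)) 2).val, 3 * ((1 : Equiv.Perm (Fin 4)) 3).val] := by
  decide +kernel

theorem lg_perm_aux (m : ℕ) (g : Equiv.Perm (Fin 4)) :
    (Lg m g).Perm ([3 * (g 0).val, 3 * (g 1).val, 3 * (g 0).val, 3 * (g 2).val, 3 * (g 1).val,
      3 * (g 3).val, 3 * (g 2).val, 3 * (g 3).val] ++
        (cc m 0 ++ cc m 1 ++ cc m 2 ++ cc m 3 ++ cc m 4)) := by
  rw [List.perm_iff_count]
  intro a
  unfold Lg
  simp only [List.count_append, List.count_cons, List.count_nil]
  omega

theorem lg_perm (m : ℕ) (g : Equiv.Perm (Fin 4)) : (Lg m g).Perm (Lg m 1) :=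
  (lg_perm_aux m g).trans (((ys_perm g).append_right _).trans (lg_perm_aux m 1).symm)

theorem cc_pj (m j k k' : ℕ) (hk' : k' < 5) :
    (cc m k').flatMap (pj j k) = if k' = k then zs (List.range m) else [] := by
  unfold cc zs
  induction (List.range m) with
  | nil => simp
  | cons a l ih =>
    rw [List.map_cons, List.flatMap_cons, ih]
    have h1 : ¬ (3 * (5 * a + k') + 1) % 3 = 0 := by omega
    have h2 : (3 * (5 * a + k') + 1) % 3 = 1 := by omega
    have h3 : (3 * (5 * a + k') + 1) / 3 % 5 = k' := by omega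
    have h4 : (3 * (5 * a + k') + 1) / 3 / 5 = a := by omega
    have e : pj j k (3 * (5 * a + k') + 1) = if k' = k then [3 * a + 1] else [] := by
      unfold pj
      rw [if_neg h1, if_pos h2, h3, h4]
    rw [e]
    by_cases hkk : k' = k
    · simp [hkk]
    · simp [hkk]

theorem y_pj (g : Equiv.Perm (Fin 4)) (a j : Fin 4) (k : ℕ) :
    pj (g j).val k (3 * (g a).val) = if a = j then [0] else [] := by
  unfold pj
  rw [if_pos (by omega)]
  by_cases h : a = j
  · rw [if_pos (by rw [h]), if_pos h]
  · rw [if_neg, if_neg h]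
    intro h1
    exact h (g.injective (Fin.ext (by omega)))

theorem no_btw {A C a b c : List ℕ} (hA : 0 ∉ A) (hC : 0 ∉ C)
    (h : A ++ 0 :: 0 :: C = a ++ 0 :: (b ++ 0 :: c)) : b = [] := by
  rcases List.append_eq_append_iff.1 h with ⟨a', h1, h2⟩ | ⟨c', h1, h2⟩
  · rcases a' with _ | ⟨x, a'⟩
    · simp only [List.nil_append, List.cons.injEq, true_and] at h2
      rcases b with _ | ⟨y, b⟩
      · rfl
      · simp only [List.cons_append, List.cons.injEq] at h2
        exact absurd (by rw [h2.2]; simp) hC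
    · simp only [List.cons_append, List.cons.injEq] at h2
      rcases a' with _ | ⟨y, a'⟩
      · simp only [List.nil_append, List.cons.injEq, true_and] at h2
        exact absurd (by rw [h2.2]; simp) hC
      · simp only [List.cons_append, List.cons.injEq] at h2
        exact absurd (by rw [h2.2.2]; simp) hC
  · rcases c' with _ | ⟨x, c'⟩
    · simp only [List.nil_append, List.cons.injEq, true_and] at h2
      rcases b with _ | ⟨y, b⟩
      · rfl
      · simp only [List.cons_append, List.cons.injEq] at h2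
        exact absurd (by rw [← h2.2]; simp) hC
    · simp only [List.cons_append, List.cons.injEq] at h2
      exact absurd (by rw [h1, ← h2.1]; simp) hA

/-- the place blocks -/
theorem wm_split (P Q L : List ℕ) : ∃ A D : List ℕ, 0 ∉ A ∧ 0 ∉ D ∧
    Wm P Q L = A ++ (L ++ D) := by
  have key : ∀ S : List ℕ, 0 ∉ (S.map (fun e => e + 1)).flatMap
      (fun r => (if r = 0 then L else [3 * (r - 1) + 1]) ++ [3 * r + 2]) := by
    intro S h
    rw [List.mem_flatMap] at h
    obtain ⟨r, hr, h⟩ := h
    rw [List.mem_map] at hr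
    obtain ⟨e, _, rfl⟩ := hr
    rw [if_neg (by omega)] at h
    simp at h
  refine ⟨_, [2] ++ (Q.map (fun e => e + 1)).flatMap
      (fun r => (if r = 0 then L else [3 * (r - 1) + 1]) ++ [3 * r + 2]), key P, ?_, ?_⟩
  · intro h
    rcases List.mem_append.1 h with h | h
    · simp at h
    · exact key Q h
  · unfold Wm Bw
    rw [List.flatMap_append, List.flatMap_cons]
    simp

theorem zs_zero (D : List ℕ) : 0 ∉ zs D := by
  unfold zs
  simp

theorem not_inc {β : FIC} {P Q : List ℕ} {m : ℕ} (hm : 1 ≤ m) (hH : HH β P Q m) {L : List ℕ}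
    (hL : L = 0 :: 0 :: zs (List.range m) ∨ L = zs (List.range m) ++ [0, 0])
    (h : RR β (Wm P Q L) (bw P Q m)) : False := by
  obtain ⟨a, b, c, h1, h2⟩ := hH _ h.symm 0 hm
  obtain ⟨A, D, hA, hD, h3⟩ := wm_split P Q L
  have hz := zs_zero (List.range m)
  have hb : b = [] := by
    rcases hL with rfl | rfl
    · have e : A ++ (0 :: 0 :: zs (List.range m) ++ D) = A ++ 0 :: 0 :: (zs (List.range m) ++ D) := by
        simp
      rw [h3, e] at h1
      exact no_btw hA (by simp [hz, hD]) h1
    · have e : A ++ (zs (List.range m) ++ [0, 0] ++ D) = (A ++ zs (List.range m)) ++ 0 :: 0 :: D := by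
        simp
      rw [h3, e] at h1
      exact no_btw (by simp [hz, hA]) hD h1
  rw [hb] at h2
  simp at h2

theorem pws : PwsStmt := by
  intro β _ _ P Q m hm _ hH g
  refine ⟨Lg m g, rfl, lg_perm m g, ?_⟩
  intro j k hk
  have e0 : (Lg m g).flatMap (pj (g j).val k) =
      (if (0 : Fin 4) = j then [0] else []) ++ (if 0 = k then zs (List.range m) else []) ++
      (if (1 : Fin 4) = j then [0] else []) ++ (if 1 = k then zs (List.range m) else []) ++
      ((if (0 : Fin 4) = j then [0] else []) ++ (if (2 : Fin 4) = j then [0] else [])) ++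
      (if 2 = k then zs (List.range m) else []) ++
      ((if (1 : Fin 4) = j then [0] else []) ++ (if (3 : Fin 4) = j then [0] else [])) ++
      (if 3 = k then zs (List.range m) else []) ++
      (if (2 : Fin 4) = j then [0] else []) ++ (if 4 = k then zs (List.range m) else []) ++
      (if (3 : Fin 4) = j then [0] else []) := by
    unfold Lg
    simp only [List.flatMap_append, List.flatMap_cons, List.flatMap_nil, List.append_nil, y_pj,
      cc_pj m _ k 0 (by norm_num), cc_pj m _ k 1 (by norm_num), cc_pj m _ k 2 (by norm_num),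
      cc_pj m _ k 3 (by norm_num), cc_pj m _ k 4 (by norm_num)]
  unfold Inc
  rw [e0]
  constructor
  · intro h
    by_contra hcon
    refine not_inc hm hH (L := _) ?_ h
    fin_cases j <;> interval_cases k <;> simp at hcon ⊢
  · intro h
    have e1 : ∀ L, L = 0 :: (zs (List.range m) ++ [0]) → RR β (Wm P Q L) (bw P Q m) := by
      rintro L rfl
      exact RR.refl _
    apply e1
    fin_cases j <;> interval_cases k <;> simp at h ⊢

end Pool.Agent.MVD.H48
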